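import Pool.Agent.MWGQ.Stmts

/-!
# Squad MWGQ (problem MP_23468a_al), row G3F
-/

namespace Pool.Agent.MWGQ.H94

open Pool.Agent.Helper14_MV Pool.Agent.Helper2_MV Pool.Agent.MWGQ

theorem g3f (h1 : GndStmt) (h2 : DpeStmt) (h3 : CmwStmt) : G3fStmt := by
  intro n β hM hn hper hnc hgm hnb hc hk hI
  obtain ⟨d, -, hG, hd⟩ := h1 n β hn hper hnc hgm hnb hc hk
  exact h3 d β hG (hd hI) (fun m τ hτ => h2 d β hM hG m τ hτ)

end Pool.Agent.MWGQ.H94
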